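import Pool.Agent.H85.LK.Targets

/-!
# MP_8f7db2_an, module BUD: upper bound for the ball
helper1
-/

set_option autoImplicit false

open MeasureTheory Metric Set ProbabilityTheory
open scoped ENNReal

namespace Pool.Agent.H1.LK

open Pool.Agent.H85.LK

/-- the functions `(α + ⟪β, x⟫ / ‖x‖) a(‖x‖)` as a linear map -/
noncomputable def hmap (N : ℕ) (a : ℝ → ℝ) : ℝ × E N →ₗ[ℝ] (E N → ℝ) where
  toFun p := fun x => (p.1 + inner ℝ p.2 x / ‖x‖) * a ‖x‖
  map_add' p q := by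
    funext x
    simp only [Prod.fst_add, Prod.snd_add, inner_add_left, Pi.add_apply]
    ring
  map_smul' r p := by
    funext x
    simp only [Prod.smul_fst, Prod.smul_snd, inner_smul_left, Pi.smul_apply, smul_eq_mul,
      RingHom.id_apply, conj_trivial]
    ring

theorem radial (N : ℕ) (hN : 1 ≤ N) (f : ℝ → ℝ) :
    ∫ x : E N, f ‖x‖ =
      ((N : ℝ) * (volume : Measure (E N)).real (ball 0 1)) *
        ∫ t in Ioi (0 : ℝ), f t * t ^ (N - 1) := by
  have : Nonempty (Fin N) := ⟨⟨0, by omega⟩⟩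
  have h := MeasureTheory.integral_fun_norm_addHaar (volume : Measure (E N)) f
  rw [h, finrank_euclideanSpace_fin]
  simp only [nsmul_eq_mul, smul_eq_mul]
  rw [← mul_assoc]
  congr 1
  apply integral_congr_ae
  filter_upwards with t
  ring

theorem pf_BUD (hAP : T_AP) (hNE : T_NE) (hBUA : T_BUA) (hBUB : T_BUB) (hHDY : T_HDY)
    (hBUC : T_BUC) : T_BUD := by
  intro N hN
  have hN1 : 1 ≤ N := by omega
  have hNR : (3 : ℝ) ≤ N := by exact_mod_cast hN
  have hN2 : (0 : ℝ) < (N : ℝ) - 2 := by linarith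
  set κ : ℝ := 1 + 4 * ((N : ℝ) - 1) / ((N : ℝ) - 2) ^ 2 with hκ
  have hκ0 : 0 < κ := by
    have : 0 ≤ 4 * ((N : ℝ) - 1) / ((N : ℝ) - 2) ^ 2 :=
      div_nonneg (by linarith) (by positivity)
    linarith
  have hbdd : ∀ n, 1 ≤ n → BddBelow (adm N n (ball (0 : E N) 1)) := fun n hn =>
    ⟨0, fun c hc => hAP N n _ c hn hc⟩
  have hne : (adm N 1 (ball (0 : E N) 1)).Nonempty :=
    hNE N 1 _ hN1 isOpen_ball ⟨0, by simp⟩
  have key : ∀ ε : ℝ, 0 < ε → lam N (N + 1) (ball (0 : E N) 1) ≤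
      κ * (lam N 1 (ball (0 : E N) 1) + 2 * ε) := by
    intro ε hε
    obtain ⟨c, hc, hclt⟩ := Real.lt_sInf_add_pos hne hε
    have hc' := hc
    obtain ⟨V, hV1, hV⟩ := hc'
    have hVne : V ≠ ⊥ := by
      rintro rfl
      rw [finrank_bot] at hV1
      exact zero_ne_one hV1
    obtain ⟨w, hwV, hw0⟩ := Submodule.exists_mem_ne_zero_of_ne_bot hVne
    obtain ⟨hw1, hw2, hw3, hw4⟩ := hV w hwV
    obtain ⟨g, hg1, hg2, hg3, hg4⟩ := hBUA N w c hN1 hw1 hw2 hw3 hw0 hw4
    obtain ⟨a, δ, ha, ha1, ha2⟩ := hBUB N g c ε hN hε hg1 hg2 hg3 hg4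
    have hHd := hHDY N a δ hN ha
    -- the three radial integrals
    set m : ℝ := (N : ℝ) * (volume : Measure (E N)).real (ball 0 1) with hm
    have hm0 : 0 < m := by
      have hb : 0 < (volume : Measure (E N)).real (ball 0 1) := by
        rw [Measure.real, ENNReal.toReal_pos_iff]
        exact ⟨measure_ball_pos _ _ one_pos, measure_ball_lt_top⟩
      have : (0 : ℝ) < N := by linarith
      positivity
    set X : ℝ := ∫ x : E N, a ‖x‖ ^ 2 with hX
    set Y : ℝ := ∫ x : E N, deriv a ‖x‖ ^ 2 with hY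
    set Z : ℝ := ∫ x : E N, a ‖x‖ ^ 2 / ‖x‖ ^ 2 with hZ
    have eX : X = m * ∫ t in Ioi (0 : ℝ), a t ^ 2 * t ^ (N - 1) :=
      radial N hN1 (fun t => a t ^ 2)
    have eY : Y = m * ∫ t in Ioi (0 : ℝ), deriv a t ^ 2 * t ^ (N - 1) :=
      radial N hN1 (fun t => deriv a t ^ 2)
    have eZ : Z = m * ∫ t in Ioi (0 : ℝ), a t ^ 2 * t ^ (N - 3) := by
      rw [hZ, radial N hN1 (fun t => a t ^ 2 / t ^ 2)]
      congr 1
      apply setIntegral_congr_fun measurableSet_Ioi
      intro t ht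
      have ht0 : t ≠ 0 := ne_of_gt ht
      have : t ^ (N - 1) = t ^ (N - 3) * t ^ 2 := by
        rw [← pow_add]; congr 1; omega
      simp only
      rw [this]
      field_simp
    have hX0 : 0 < X := by rw [eX]; positivity
    have hY0 : 0 ≤ Y := integral_nonneg fun x => by positivity
    have hYX : Y ≤ (c + ε) * X := by
      rw [eX, eY]
      calc m * _ ≤ m * ((c + ε) * ∫ t in Ioi (0 : ℝ), a t ^ 2 * t ^ (N - 1)) :=
            mul_le_mul_of_nonneg_left ha2 hm0.le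
        _ = _ := by ring
    have hZY : Z ≤ 4 / ((N : ℝ) - 2) ^ 2 * Y := by
      rw [eZ, eY]
      calc m * _ ≤ m * (4 / ((N : ℝ) - 2) ^ 2 *
            ∫ t in Ioi (0 : ℝ), deriv a t ^ 2 * t ^ (N - 1)) :=
            mul_le_mul_of_nonneg_left hHd hm0.le
        _ = _ := by ring
    -- the subspace
    have hmem : κ * (c + ε) ∈ adm N (N + 1) (ball (0 : E N) 1) := by
      refine ⟨LinearMap.range (hmap N a), ?_, ?_⟩
      · have hinj : Function.Injective (hmap N a) := by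
          rw [← LinearMap.ker_eq_bot, LinearMap.ker_eq_bot']
          rintro ⟨α, β⟩ h0
          obtain ⟨-, -, -, h4, -⟩ := hBUC N a δ α β hN1 ha
          have e0 : (fun x : E N => (α + inner ℝ β x / ‖x‖) * a ‖x‖) = 0 := h0
          have e1 : ∫ x : E N, ((α + inner ℝ β x / ‖x‖) * a ‖x‖) ^ 2 = 0 := by
            have : ∀ x : E N, ((α + inner ℝ β x / ‖x‖) * a ‖x‖) ^ 2 = 0 := by
              intro x
              have := congrFun e0 x
              simp only [Pi.zero_apply] at this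
              rw [this]; ring
            simp only [this, integral_zero]
          rw [e1] at h4
          have h5 : α ^ 2 + ‖β‖ ^ 2 / N = 0 := by
            rcases mul_eq_zero.1 h4.symm with h | h
            · exact h
            · exact absurd h hX0.ne'
          have h6 : 0 ≤ ‖β‖ ^ 2 / N := by positivity
          have h7 : α ^ 2 = 0 := by nlinarith [sq_nonneg α]
          have h8 : ‖β‖ ^ 2 / N = 0 := by nlinarith [sq_nonneg α]
          have h9 : ‖β‖ ^ 2 = 0 := by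
            rcases div_eq_zero_iff.1 h8 with h | h
            · exact h
            · exfalso; linarith
          have h10 : β = 0 := by
            rw [← norm_eq_zero]; exact pow_eq_zero_iff (two_ne_zero) |>.1 h9
          have h11 : α = 0 := pow_eq_zero_iff (two_ne_zero) |>.1 h7
          rw [h10, h11]; rfl
        rw [LinearMap.finrank_range_of_inj hinj, Module.finrank_prod, finrank_euclideanSpace_fin,
          Module.finrank_self, add_comm]
      · rintro v ⟨⟨α, β⟩, rfl⟩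
        obtain ⟨h1, h2, h3, h4, h5⟩ := hBUC N a δ α β hN1 ha
        refine ⟨h1, h2, h3, ?_⟩
        change ∫ x : E N, ‖fderiv ℝ (fun x : E N => (α + inner ℝ β x / ‖x‖) * a ‖x‖) x‖ ^ 2 ≤
          κ * (c + ε) * ∫ x : E N, ((α + inner ℝ β x / ‖x‖) * a ‖x‖) ^ 2
        rw [h4, h5, ← hX, ← hY, ← hZ]
        have hN0 : (N : ℝ) ≠ 0 := by linarith
        have hS0 : 0 ≤ α ^ 2 + ‖β‖ ^ 2 / N := by positivity
        have h1N : 0 ≤ ‖β‖ ^ 2 * (1 - 1 / (N : ℝ)) := by
          have : 1 / (N : ℝ) ≤ 1 := by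
            rw [div_le_one (by linarith)]; linarith
          exact mul_nonneg (by positivity) (by linarith)
        have hstep1 : ‖β‖ ^ 2 * (1 - 1 / (N : ℝ)) * Z ≤
            ‖β‖ ^ 2 * (1 - 1 / (N : ℝ)) * (4 / ((N : ℝ) - 2) ^ 2 * Y) :=
          mul_le_mul_of_nonneg_left hZY h1N
        have hstep2 : ‖β‖ ^ 2 * (1 - 1 / (N : ℝ)) * (4 / ((N : ℝ) - 2) ^ 2 * Y) =
            ‖β‖ ^ 2 / N * (4 * ((N : ℝ) - 1) / ((N : ℝ) - 2) ^ 2) * Y := by
          have : ((N : ℝ) - 2) ≠ 0 := hN2.ne'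
          field_simp
        have hq : 0 ≤ 4 * ((N : ℝ) - 1) / ((N : ℝ) - 2) ^ 2 :=
          div_nonneg (by linarith) (by positivity)
        have hstep3 : (α ^ 2 + ‖β‖ ^ 2 / N) * Y + ‖β‖ ^ 2 * (1 - 1 / (N : ℝ)) * Z ≤
            κ * ((α ^ 2 + ‖β‖ ^ 2 / N) * Y) := by
          have h6 : ‖β‖ ^ 2 / N * (4 * ((N : ℝ) - 1) / ((N : ℝ) - 2) ^ 2) * Y ≤
              (α ^ 2 + ‖β‖ ^ 2 / N) * (4 * ((N : ℝ) - 1) / ((N : ℝ) - 2) ^ 2) * Y := by
            apply mul_le_mul_of_nonneg_right _ hY0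
            apply mul_le_mul_of_nonneg_right _ hq
            nlinarith [sq_nonneg α]
          calc (α ^ 2 + ‖β‖ ^ 2 / N) * Y + ‖β‖ ^ 2 * (1 - 1 / (N : ℝ)) * Z
              ≤ (α ^ 2 + ‖β‖ ^ 2 / N) * Y +
                (α ^ 2 + ‖β‖ ^ 2 / N) * (4 * ((N : ℝ) - 1) / ((N : ℝ) - 2) ^ 2) * Y := by
                linarith
            _ = κ * ((α ^ 2 + ‖β‖ ^ 2 / N) * Y) := by rw [hκ]; ring
        calc _ ≤ κ * ((α ^ 2 + ‖β‖ ^ 2 / N) * Y) := hstep3
          _ ≤ κ * ((α ^ 2 + ‖β‖ ^ 2 / N) * ((c + ε) * X)) :=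
              mul_le_mul_of_nonneg_left (mul_le_mul_of_nonneg_left hYX hS0) hκ0.le
          _ = _ := by ring
    have hle : lam N (N + 1) (ball (0 : E N) 1) ≤ κ * (c + ε) :=
      csInf_le (hbdd (N + 1) (by omega)) hmem
    have hlt : c + ε ≤ lam N 1 (ball (0 : E N) 1) + 2 * ε := by
      have : c < lam N 1 (ball (0 : E N) 1) + ε := hclt
      linarith
    exact hle.trans (mul_le_mul_of_nonneg_left hlt hκ0.le)
  apply le_of_forall_pos_le_add
  intro η hη
  have h := key (η / (2 * κ)) (by positivity)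
  have e : κ * (lam N 1 (ball (0 : E N) 1) + 2 * (η / (2 * κ))) =
      κ * lam N 1 (ball (0 : E N) 1) + η := by
    field_simp
  rw [e] at h
  exact h

end Pool.Agent.H1.LK
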